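import Pool.Agent.W541.DL.Stm

/-!
Scaling of last passage values, deterministic part (helper919, for helper541).
-/

namespace Pool.Agent.W919.DL.SCD

open Pool.Agent.W541.DL
open scoped Pointwise

theorem val_eq (w : ℕ → ℝ → ℝ) (a m : ℕ) (s d : ℝ) (hd : 0 < d) (τ : ℕ → ℝ) :
    pathVal (fun k => w (a + k)) m (fun k => s + d * τ k) =
      Real.sqrt d * pathVal (fun k t => (w (a + k) (s + d * t) - w (a + k) s) / Real.sqrt d) m τ := by
  have h : 0 < Real.sqrt d := Real.sqrt_pos.2 hd
  unfold pathVal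
  rw [Finset.mul_sum]
  refine Finset.sum_congr rfl fun k _ => ?_
  field_simp
  ring

theorem main : S_SCD := by
  intro w a m s d hd
  unfold blpp supK
  rw [← smul_eq_mul, ← Real.sSup_smul_of_nonneg (Real.sqrt_nonneg d)]
  congr 1
  ext z
  constructor
  · rintro ⟨τ, ⟨h1, h2, h3⟩, rfl⟩
    refine ⟨_, ⟨fun k => (τ k - s) / d, ⟨?_, ?_, ?_⟩, rfl⟩, ?_⟩
    · intro i j hij
      exact div_le_div_of_nonneg_right (sub_le_sub_right (h1 hij) _) hd.le
    · show (τ 0 - s) / d = 0
      rw [h2]
      simp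
    · show (τ m - s) / d = 1
      rw [h3]
      field_simp
      ring
    · show Real.sqrt d • _ = _
      rw [smul_eq_mul, ← val_eq w a m s d hd]
      congr 1
      ext k
      field_simp
      ring
  · rintro ⟨_, ⟨τ, ⟨h1, h2, h3⟩, rfl⟩, rfl⟩
    refine ⟨fun k => s + d * τ k, ⟨?_, ?_, ?_⟩, ?_⟩
    · intro i j hij
      have := mul_le_mul_of_nonneg_left (h1 hij) hd.le
      show s + d * τ i ≤ s + d * τ j
      linarith
    · show s + d * τ 0 = s
      rw [h2]
      ring
    · show s + d * τ m = s + d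
      rw [h3]
      ring
    · show _ = Real.sqrt d • _
      rw [smul_eq_mul, ← val_eq w a m s d hd]

end Pool.Agent.W919.DL.SCD
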